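import Pool.Agent.N658.TP.Stm4
import Pool.Agent.N346.TP.Rdm

/-! # Project TP (helper658): final assembly in terms of the entropy -/

open scoped BigOperators ComplexConjugate Classical InnerProductSpace Matrix ComplexOrder
open scoped Matrix.Norms.L2Operator

noncomputable section

namespace Pool.Agent.N286.TP

open Pool.Agent.Y738.PE Pool.Agent.N658.TP

lemma reach_mono {d r m f : ℕ} [NeZero m] {ρ : (BConf d r → BConf d r → ℂ) → ℂ} {η η' : ℝ}
    (h : η ≤ η') (hR : Reach d r m f ρ η) : Reach d r m f ρ η' := by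
  intro B hB hc
  obtain ⟨C, h1, h2⟩ := hR B hB hc
  refine ⟨C, h1, h2.trans (mul_le_mul_of_nonneg_right (by linarith) (by positivity))⟩

theorem ent1 (hB : StmReachB) : StmEnt1 := by
  intro d hd R
  obtain ⟨r, hr, hreg⟩ := region_of_box d R
  obtain ⟨c, hc1, hfin⟩ := fin_box pipe' d r hd hr
  obtain ⟨C₁', hC₁', hreach⟩ := hB d r hd hr
  obtain ⟨C₁, hC₁⟩ : ∃ C₁ : ℝ, C₁ = max C₁' 1 := ⟨_, rfl⟩
  have hC1 : 1 ≤ C₁ := by rw [hC₁]; exact le_max_right _ _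
  have hCC : C₁' ≤ C₁ := by rw [hC₁]; exact le_max_left _ _
  have hr1 : (1 : ℝ) ≤ r := by exact_mod_cast hr
  have hc0 : 0 < c := by linarith
  have hC0 : 0 < C₁ := by linarith
  obtain ⟨K, hK⟩ : ∃ K : ℝ, K = 2 * c * C₁ ^ 2 + 2 * c + r + 1 := ⟨_, rfl⟩
  have hcC : 0 < c * C₁ ^ 2 := by positivity
  have hK1 : 1 ≤ K := by rw [hK]; nlinarith
  have hK2 : 2 * c * C₁ ^ 2 ≤ K := by rw [hK]; nlinarith
  have hK3 : 2 * c ≤ K := by rw [hK]; nlinarith
  have hK4 : (r : ℝ) ≤ K := by rw [hK]; nlinarith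
  obtain ⟨Λ, hΛ⟩ : ∃ Λ : ℝ, Λ = 1 + 2 * Real.log (K + 1) := ⟨_, rfl⟩
  have hlK : 0 ≤ Real.log (K + 1) := Real.log_nonneg (by linarith)
  have hΛ1 : 1 ≤ Λ := by rw [hΛ]; linarith
  obtain ⟨C, hC⟩ : ∃ C : ℝ, C = 4 * C₁ + (8 * c * C₁ ^ 2 * Λ + c * Λ) + c * (2 * K + 2) ^ 4 +
    (2 * K + 2) := ⟨_, rfl⟩
  have p1 : 0 ≤ 8 * c * C₁ ^ 2 * Λ := by positivity
  have p2 : 0 ≤ c * Λ := by positivity
  have p3 : 0 ≤ c * (2 * K + 2) ^ 4 := by positivity
  refine ⟨C, by rw [hC]; positivity, ?_⟩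
  intro ε hε hε1 b hb L _ hL Ψ hΨ hTI
  have hTIe := transInv_expec Ψ hΨ hTI
  have hb1 : (1 : ℝ) ≤ b := by exact_mod_cast hb
  have hb0 : (0 : ℝ) < b := by linarith
  obtain ⟨k, hk⟩ : ∃ k : ℕ, k = ⌈K / (b * ε)⌉₊ := ⟨_, rfl⟩
  have hk0 : 0 < k := by
    rw [hk]
    exact Nat.ceil_pos.2 (by positivity)
  have hKk : K / (b * ε) ≤ k := by rw [hk]; exact Nat.le_ceil _
  have hkK : (k : ℝ) ≤ K / (b * ε) + 1 := by
    rw [hk]
    exact (Nat.ceil_lt_add_one (by positivity)).le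
  have : NeZero (b * (2 * k)) := ⟨by positivity⟩
  obtain ⟨m, hm⟩ : ∃ m : ℝ, m = ((b * (2 * k) : ℕ) : ℝ) := ⟨_, rfl⟩
  have hmm : m = 2 * (b * k) := by rw [hm]; push_cast; ring
  have hinv : 1 ≤ 1 / ε := by rw [le_div_iff₀ hε]; linarith
  have hKm : K / ε ≤ b * k := by
    have h1 : (b : ℝ) * (K / (b * ε)) ≤ b * k := mul_le_mul_of_nonneg_left hKk hb0.le
    have h2 : (b : ℝ) * (K / (b * ε)) = K / ε := by field_simp
    rwa [h2] at h1
  have hKe : K ≤ K / ε := by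
    rw [le_div_iff₀ hε]
    nlinarith
  have hlow : K / ε ≤ m := by
    rw [hmm]
    linarith
  have hm1 : 1 ≤ m := by linarith
  have hup : m ≤ (2 * K + 2) * (b / ε) := by
    rw [hmm]
    have h1 : (b : ℝ) * k ≤ b * (K / (b * ε) + 1) := mul_le_mul_of_nonneg_left hkK hb0.le
    have h2 : (b : ℝ) * (K / (b * ε) + 1) = K / ε + b := by field_simp
    rw [h2] at h1
    have h3 : K / ε ≤ K * (b / ε) := by
      have e : K * (b / ε) = (K / ε) * b := by ring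
      rw [e]
      have : 0 ≤ K / ε := by positivity
      nlinarith
    have h4 : (b : ℝ) ≤ b / ε := by
      rw [le_div_iff₀ hε]
      nlinarith
    have e2 : (2 * K + 2) * ((b : ℝ) / ε) = 2 * (K * (b / ε)) + 2 * (b / ε) := by ring
    rw [e2]
    linarith
  have hCge : 2 * K + 2 ≤ C := by rw [hC]; linarith
  have hmL : m ≤ L := by
    refine hup.trans (le_trans ?_ hL)
    have e : C * b / ε = C * (b / ε) := by ring
    rw [e]
    exact mul_le_mul_of_nonneg_right hCge (by positivity)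
  have hmL' : b * (2 * k) ≤ L := by
    rw [hm] at hmL
    exact_mod_cast hmL
  have hbL : b ≤ L := le_trans (Nat.le_mul_of_pos_right b (by positivity)) hmL'
  have hrm : (r : ℝ) ≤ m := by linarith
  have hrL : r ≤ L := by
    have : (r : ℝ) ≤ L := hrm.trans hmL
    exact_mod_cast this
  obtain ⟨-, -, hS0, -, -⟩ := Pool.Agent.N346.TP.Rdm.rdmMain d L b hbL Ψ hΨ
  obtain ⟨S, hS⟩ : ∃ S : ℝ, S = vnE (rdm Ψ b) := ⟨_, rfl⟩
  rw [← hS] at hS0
  -- reach
  have hε' : 0 < ε / (2 * c * C₁) := by positivity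
  have hε'1 : ε / (2 * c * C₁) ≤ 1 := by
    rw [div_le_one (by positivity)]
    nlinarith
  have hcond : C₁' / (ε / (2 * c * C₁)) ≤ ((b * (2 * k) : ℕ) : ℝ) := by
    rw [← hm]
    refine le_trans ?_ hlow
    rw [div_div_eq_mul_div]
    refine div_le_div_of_nonneg_right (le_trans ?_ hK2) hε.le
    have : C₁' * (2 * c * C₁) ≤ C₁ * (2 * c * C₁) :=
      mul_le_mul_of_nonneg_right hCC (by positivity)
    nlinarith
  obtain ⟨f, hf, hF⟩ := hreach b k L (by omega) hk0 hmL' (ε / (2 * c * C₁)) hε' hε'1 hcond Ψ hΨ hTIe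
  rw [← hm, ← hS] at hf
  have hF' : Reach d r (b * (2 * k)) f (fun B => expec Ψ 0 B) (ε / (2 * c)) := by
    refine reach_mono ?_ hF
    have h1 : C₁' * (ε / (2 * c * C₁)) ≤ C₁ * (ε / (2 * c * C₁)) :=
      mul_le_mul_of_nonneg_right hCC hε'.le
    have h2 : C₁ * (ε / (2 * c * C₁)) = ε / (2 * c) := by field_simp
    linarith
  have hc3 : 2 * c / ε ≤ ((b * (2 * k) : ℕ) : ℝ) := by
    rw [← hm]
    exact le_trans (div_le_div_of_nonneg_right hK3 hε.le) hlow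
  obtain ⟨D, A, hD, hA⟩ := hfin ε hε hε1 (b * (2 * k)) f L hc3 hrL _ hf Ψ hΨ hF'
  rw [← hm] at hD hA
  refine ⟨D, A, hD.trans (Real.exp_le_exp.2 ?_), ?_⟩
  · rw [← hS]
    obtain ⟨l, hl⟩ : ∃ l : ℝ, l = Real.log (2 * b / ε) := ⟨_, rfl⟩
    rw [← hl]
    have hbe : 1 ≤ (b : ℝ) / ε := by
      rw [le_div_iff₀ hε]
      linarith
    have hl2 : 1 / 2 ≤ l := by
      rw [hl]
      have h3 : Real.log 2 ≤ Real.log (2 * b / ε) := by
        refine Real.log_le_log (by norm_num) ?_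
        have : 2 * (b : ℝ) / ε = 2 * (b / ε) := by ring
        rw [this]
        linarith
      have := Real.log_two_gt_d9
      linarith
    have hlm : Real.log m ≤ Λ * l := by
      have h1 : Real.log m ≤ Real.log ((K + 1) * (2 * b / ε)) := by
        refine Real.log_le_log (by linarith) (hup.trans (le_of_eq (by ring)))
      rw [Real.log_mul (by positivity) (by positivity), ← hl] at h1
      have h2 : Real.log (K + 1) ≤ 2 * Real.log (K + 1) * l := by nlinarith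
      rw [hΛ]
      nlinarith
    have hlm0 : 0 ≤ Real.log m := Real.log_nonneg hm1
    obtain ⟨s, hs⟩ : ∃ s : ℝ, s = S / ((b : ℝ) ^ 2 * ε) := ⟨_, rfl⟩
    have hs0 : 0 ≤ s := by rw [hs]; positivity
    rw [← hs]
    have e1 : S / ((b : ℝ) ^ 2 * (ε / (2 * c * C₁))) = 2 * c * C₁ * s := by
      rw [hs]
      field_simp
    rw [e1]
    have hcC1 : 1 ≤ 2 * c * C₁ := by nlinarith
    have hsl : 0 ≤ (1 + s) * l := by positivity
    have h1 : (1 + 2 * c * C₁ * s) * Real.log m ≤ 2 * c * C₁ * Λ * ((1 + s) * l) := by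
      have h2 : (1 + 2 * c * C₁ * s) ≤ 2 * c * C₁ * (1 + s) := by nlinarith
      calc (1 + 2 * c * C₁ * s) * Real.log m ≤ (2 * c * C₁ * (1 + s)) * (Λ * l) :=
            mul_le_mul h2 hlm hlm0 (by positivity)
        _ = _ := by ring
    have h2 : C₁' * ((b : ℝ) ^ 2 + (1 + 2 * c * C₁ * s) * Real.log m) ≤
        C₁ * ((b : ℝ) ^ 2 + 2 * c * C₁ * Λ * ((1 + s) * l)) := by
      refine mul_le_mul hCC (by linarith) (by positivity) hC0.le
    have h3 : c * Real.log m ≤ c * Λ * ((1 + s) * l) := by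
      have h4 : Real.log m ≤ Λ * ((1 + s) * l) := by
        refine hlm.trans ?_
        have : 0 ≤ Λ * (s * l) := by positivity
        nlinarith
      have := mul_le_mul_of_nonneg_left h4 hc0.le
      linarith
    have h5 : C₁ * ((b : ℝ) ^ 2 + 2 * c * C₁ * Λ * ((1 + s) * l)) =
        C₁ * (b : ℝ) ^ 2 + 2 * c * C₁ ^ 2 * Λ * ((1 + s) * l) := by ring
    rw [h5] at h2
    have h6 : C * ((b : ℝ) ^ 2 + (1 + s) * l) = 4 * C₁ * (b : ℝ) ^ 2 +
        (8 * c * C₁ ^ 2 * Λ + c * Λ) * ((1 + s) * l) +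
        ((8 * c * C₁ ^ 2 * Λ + c * Λ) + c * (2 * K + 2) ^ 4 + (2 * K + 2)) * (b : ℝ) ^ 2 +
        (4 * C₁ + c * (2 * K + 2) ^ 4 + (2 * K + 2)) * ((1 + s) * l) := by
      rw [hC]
      ring
    rw [h6]
    have h7 : 0 ≤ ((8 * c * C₁ ^ 2 * Λ + c * Λ) + c * (2 * K + 2) ^ 4 + (2 * K + 2)) *
      (b : ℝ) ^ 2 := by positivity
    have h8 : 0 ≤ (4 * C₁ + c * (2 * K + 2) ^ 4 + (2 * K + 2)) * ((1 + s) * l) := by positivity
    linarith
  · intro L' _ hL'
    have hrT : (r : ℝ) ≤ c * m ^ 4 := by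
      have h1 : m ≤ m ^ 4 := by
        calc m = m ^ 1 := (pow_one m).symm
          _ ≤ m ^ 4 := pow_le_pow_right₀ hm1 (by norm_num)
      have h2 : m ^ 4 ≤ c * m ^ 4 := by
        have : 0 ≤ m ^ 4 := by positivity
        nlinarith
      linarith
    refine hreg D L A Ψ (c * m ^ 4) ε hrL hrT hΨ hTIe hA L' (le_trans ?_ hL')
    have h1 : m ^ 4 ≤ ((2 * K + 2) * (b / ε)) ^ 4 := pow_le_pow_left₀ (by linarith) hup 4
    have h2 : c * m ^ 4 ≤ c * ((2 * K + 2) * (b / ε)) ^ 4 :=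
      mul_le_mul_of_nonneg_left h1 hc0.le
    have h3 : c * ((2 * K + 2) * ((b : ℝ) / ε)) ^ 4 = (c * (2 * K + 2) ^ 4) * (b / ε) ^ 4 := by
      ring
    rw [h3] at h2
    refine h2.trans (mul_le_mul_of_nonneg_right ?_ (by positivity))
    rw [hC]
    have : 0 ≤ 4 * C₁ := by positivity
    linarith

end Pool.Agent.N286.TP
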